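import Pool.Agent.Q224.LM.Fin

/-!
# Span bisimilarity does not imply coalgebraic bisimilarity for labelled Markov processes

The definitions of labelled Markov processes, zigzag morphisms, span bisimilarity and coalgebraic
bisimilarity are in `Pool.Agent.Q224.LM.Defs`.
-/

set_option autoImplicit false

open Q224.LM

namespace Pool.Agent.Results.MP_6dbda4_lc.SpanNotCoalgebraic

/-- For every nonempty label set there are two labelled Markov processes and a state of each such
that the two states are related by a span of zigzag morphisms but by no coalgebraic
bisimulation. -/
theorem result (L : Type) [Nonempty L] :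
    ∃ (A B : LMP L) (s : A.S) (s' : B.S), SpanBisim A B s s' ∧ ¬ DeltaBisim A B s s' :=
  ⟨PL L, PR L, sL L, sR L, span L, not_delta L⟩

end Pool.Agent.Results.MP_6dbda4_lc.SpanNotCoalgebraic
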